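import Mathlib
import Pool.Agent.H39.IdealLimit2

set_option autoImplicit false

namespace Pool.Agent.Results.MP_c9b87f_lc.Dichotomy

open Set Filter Topology

/-- For every Polish space `X` and every ideal `I` on `ℕ` that is a countable intersection of
countable unions of countable intersections of open subsets of Cantor space, the family of sets
of `I`-limit points of sequences in `X`, together with the empty set, is either the family of
closed sets or the family of countable unions of closed sets. -/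
theorem result (X : Type) [TopologicalSpace X] [PolishSpace X] (I : Set (Set ℕ))
    (hdown : ∀ A ∈ I, ∀ B : Set ℕ, B ⊆ A → B ∈ I)
    (hunion : ∀ A ∈ I, ∀ B ∈ I, A ∪ B ∈ I)
    (hfin : ∀ A : Set ℕ, A.Finite → A ∈ I)
    (hproper : (univ : Set ℕ) ∉ I)
    (hPi04 : ∃ U : ℕ → ℕ → ℕ → Set (ℕ → Bool), (∀ i j k, IsOpen (U i j k)) ∧
      {f : ℕ → Bool | {n : ℕ | f n = true} ∈ I} = ⋂ i, ⋃ j, ⋂ k, U i j k) :
    {L : Set X | (∃ x : ℕ → X,
        L = {η : X | ∃ S : Set ℕ, S ∉ I ∧ Tendsto x (atTop ⊓ 𝓟 S) (𝓝 η)}) ∨ L = ∅}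
      = {L : Set X | IsClosed L} ∨
    {L : Set X | (∃ x : ℕ → X,
        L = {η : X | ∃ S : Set ℕ, S ∉ I ∧ Tendsto x (atTop ⊓ 𝓟 S) (𝓝 η)}) ∨ L = ∅}
      = {L : Set X | ∃ D : ℕ → Set X, (∀ j, IsClosed (D j)) ∧ L = ⋃ j, D j} := by
  obtain ⟨U, hU, hI⟩ := hPi04
  have hid : Pool.Agent.H39.BaireLoc.IsIdeal I := ⟨hdown, hunion, hfin⟩
  have hm : MeasurableSet {f : ℕ → Bool | {n : ℕ | f n = true} ∈ I} := by
    rw [hI]
    exact MeasurableSet.iInter fun i => MeasurableSet.iUnion fun j =>
      MeasurableSet.iInter fun k => (hU i j k).measurableSet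
  have hfs := Pool.Agent.H39.IdealLimit.fsigma (X := X) hid (fun i j k => (U i j k)ᶜ)
    (fun i j k => (hU i j k).isClosed_compl) (fun f => by
      have h5 : {n | f n = true} ∈ I ↔ f ∈ ⋂ i, ⋃ j, ⋂ k, U i j k := by rw [← hI]; rfl
      rw [h5]
      simp only [mem_iInter, mem_iUnion, not_forall, not_exists, mem_compl_iff])
  let _ := TopologicalSpace.upgradeIsCompletelyMetrizable X
  by_cases h : ∀ x : ℕ → X,
      IsClosed {η : X | ∃ S : Set ℕ, S ∉ I ∧ Tendsto x (atTop ⊓ 𝓟 S) (𝓝 η)}
  · left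
    ext L
    constructor
    · rintro (⟨x, rfl⟩ | rfl)
      · exact h x
      · exact isClosed_empty
    · intro hL
      rcases L.eq_empty_or_nonempty with h1 | h1
      · exact Or.inr h1
      · exact Or.inl (Pool.Agent.H39.IdealLimit.realize_closed hid hproper hm hL h1)
  · right
    obtain ⟨x, hx⟩ := not_forall.1 h
    ext L
    constructor
    · rintro (⟨x, rfl⟩ | rfl)
      · exact hfs x
      · exact ⟨fun _ => ∅, fun _ => isClosed_empty, by simp⟩
    · rintro ⟨D, hD, rfl⟩
      rcases (⋃ j, D j).eq_empty_or_nonempty with h1 | ⟨z, hz⟩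
      · exact Or.inr h1
      · obtain ⟨j0, hj0⟩ := mem_iUnion.1 hz
        obtain ⟨y, hy⟩ := Pool.Agent.H39.IdealLimit.realize_fsigma hid hm x hx
          (F := fun j => D j ∪ D j0) (fun j => (hD j).union (hD j0)) fun j => ⟨z, Or.inr hj0⟩
        refine Or.inl ⟨y, Eq.trans ?_ hy⟩
        refine Subset.antisymm (iUnion_mono fun j => subset_union_left) (iUnion_subset fun j => ?_)
        exact union_subset (subset_iUnion D j) (subset_iUnion D j0)

end Pool.Agent.Results.MP_c9b87f_lc.Dichotomy
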